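import Pool.Agent.H65.Flat.Geo
import Pool.Agent.H72.Flat.NearFlat

/-! # A line staying at bounded distance is parallel (helper79) -/

namespace H79.Flat

open H65.Flat Set Filter
open scoped Topology

/-- a bounded function with nonnegative second derivative has vanishing derivative -/
theorem deriv_eq_zero_of_bounded {f f' f'' : ℝ → ℝ} (h1 : ∀ s, HasDerivAt f (f' s) s)
    (h2 : ∀ s, HasDerivAt f' (f'' s) s) (h3 : ∀ s, 0 ≤ f'' s) {B : ℝ} (hB : ∀ s, |f s| ≤ B) (s : ℝ) :
    f' s = 0 := by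
  have hB0 : 0 ≤ B := (abs_nonneg _).trans (hB 0)
  have hmono : Monotone f' := by
    apply monotone_of_deriv_nonneg (fun s => (h2 s).differentiableAt)
    intro s
    rw [(h2 s).deriv]
    exact h3 s
  have hcont : Continuous f := continuous_iff_continuousAt.2 fun s => (h1 s).continuousAt
  rcases lt_trichotomy (f' s) 0 with h | h | h
  · exfalso
    have hd : 0 < (2 * B + 1) / (-f' s) := div_pos (by linarith) (by linarith)
    obtain ⟨c, hc, hc'⟩ := exists_hasDerivAt_eq_slope f f'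
      (a := s - (2 * B + 1) / (-f' s)) (b := s) (by linarith) hcont.continuousOn (fun x _ => h1 x)
    have hm := hmono hc.2.le
    have e : f s - f (s - (2 * B + 1) / (-f' s)) = f' c * ((2 * B + 1) / (-f' s)) := by
      rw [hc', sub_sub_cancel, div_mul_cancel₀ _ hd.ne']
    have e2 : f' c * ((2 * B + 1) / (-f' s)) ≤ -(2 * B + 1) := by
      have : f' c * ((2 * B + 1) / (-f' s)) ≤ f' s * ((2 * B + 1) / (-f' s)) :=
        mul_le_mul_of_nonneg_right hm hd.le
      have e3 : f' s * ((2 * B + 1) / (-f' s)) = -(2 * B + 1) := by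
        have : f' s ≠ 0 := h.ne
        field_simp
      linarith
    have b1 := abs_le.1 (hB s)
    have b2 := abs_le.1 (hB (s - (2 * B + 1) / (-f' s)))
    linarith
  · exact h
  · exfalso
    have hd : 0 < (2 * B + 1) / (f' s) := div_pos (by linarith) h
    obtain ⟨c, hc, hc'⟩ := exists_hasDerivAt_eq_slope f f'
      (a := s) (b := s + (2 * B + 1) / (f' s)) (by linarith) hcont.continuousOn (fun x _ => h1 x)
    have hm := hmono hc.1.le
    have e : f (s + (2 * B + 1) / (f' s)) - f s = f' c * ((2 * B + 1) / (f' s)) := by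
      rw [hc', add_sub_cancel_left, div_mul_cancel₀ _ hd.ne']
    have e2 : 2 * B + 1 ≤ f' c * ((2 * B + 1) / (f' s)) := by
      have : f' s * ((2 * B + 1) / (f' s)) ≤ f' c * ((2 * B + 1) / (f' s)) :=
        mul_le_mul_of_nonneg_right hm hd.le
      have e3 : f' s * ((2 * B + 1) / (f' s)) = 2 * B + 1 := by
        have : f' s ≠ 0 := h.ne'
        field_simp
      linarith
    have b1 := abs_le.1 (hB s)
    have b2 := abs_le.1 (hB (s + (2 * B + 1) / (f' s)))
    linarith

open NearFlat in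
theorem fermi (G : Geo) (u : T) : Fermi (G.Gc u) (G.Gc1 u) (G.Kc u) where
  G0 t := G.J_zero _
  G10 t := G.J1_zero _
  dG t y := G.J_deriv _ y
  dG1 t y := by
    have := G.J1_deriv (rot (Real.pi / 2) (G.Φ t u)) y
    have e : G.Kc u t y = G.K (G.Φ y (rot (Real.pi / 2) (G.Φ t u))) := by
      unfold Geo.Kc Psi
      exact G.K_rot _ _
    rw [e]
    exact this
  Kneg t y := G.K_nonpos _

/-- a bounded coordinate `y` along a whole line forces the line to be parallel, with zero curvature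
in between -/
theorem parallel_of_bounded (G : Geo) (u : T) (t y φ : ℝ → ℝ)
    (h : ChartSol (G.Gc u) (G.Gc1 u) t y φ) (B : ℝ) (hB : ∀ s, |y s| ≤ B) :
    (∀ s, Real.sin (φ s) = 0 ∧ φ s = φ 0 ∧ y s = y 0 ∧ t s = t 0 + s * Real.cos (φ 0)) ∧
      (y 0 ≠ 0 → G.Strip u (y 0)) := by
  have F := fermi G u
  have ht := fun s => (h s).1
  have hy := fun s => (h s).2.1
  have hφ := fun s => (h s).2.2
  -- `y²` is convex
  have h1 : ∀ s, HasDerivAt (fun s => y s ^ 2) (2 * y s * Real.sin (φ s)) s := by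
    intro s
    refine HasDerivAt.congr_deriv (f := fun s => y s ^ 2) ((hy s).pow 2) ?_
    simp
  have h2 : ∀ s, HasDerivAt (fun s => 2 * y s * Real.sin (φ s))
      (2 * Real.sin (φ s) ^ 2 + 2 * (y s * (G.Gc1 u (t s) (y s))) / G.Gc u (t s) (y s)
        * Real.cos (φ s) ^ 2) s := by
    intro s
    refine HasDerivAt.congr_deriv (((hy s).const_mul 2).mul (hφ s).sin) ?_
    ring
  have hyG : ∀ t y, 0 ≤ y * G.Gc1 u t y := by
    intro t y
    rcases le_total 0 y with h0 | h0
    · exact mul_nonneg h0 (F.G1_nonneg h0)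
    · exact mul_nonneg_of_nonpos_of_nonpos h0 (F.G1_nonpos h0)
  have hGpos : ∀ t y, 0 < G.Gc u t y := fun t y => F.G_pos t y
  have h3 : ∀ s, 0 ≤ 2 * Real.sin (φ s) ^ 2 + 2 * (y s * (G.Gc1 u (t s) (y s))) /
      G.Gc u (t s) (y s) * Real.cos (φ s) ^ 2 := by
    intro s
    have a1 := hyG (t s) (y s)
    have a2 := hGpos (t s) (y s)
    positivity
  have h4 : ∀ s, 2 * y s * Real.sin (φ s) = 0 := fun s =>
    deriv_eq_zero_of_bounded h1 h2 h3 (B := B ^ 2) (fun s => by
      rw [abs_pow]; exact pow_le_pow_left₀ (abs_nonneg _) (hB s) 2) s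
  have h5 : ∀ s, 2 * Real.sin (φ s) ^ 2 + 2 * (y s * (G.Gc1 u (t s) (y s))) /
      G.Gc u (t s) (y s) * Real.cos (φ s) ^ 2 = 0 := by
    intro s
    have e1 := h2 s
    have e2 : HasDerivAt (fun s => 2 * y s * Real.sin (φ s)) 0 s := by
      have : (fun s => 2 * y s * Real.sin (φ s)) = fun _ => 0 := funext h4
      rw [this]
      exact hasDerivAt_const s (0 : ℝ)
    exact e1.unique e2
  have hsin : ∀ s, Real.sin (φ s) = 0 := by
    intro s
    have a1 := hyG (t s) (y s)
    have a2 := hGpos (t s) (y s)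
    have a3 : 0 ≤ 2 * (y s * (G.Gc1 u (t s) (y s))) / G.Gc u (t s) (y s) * Real.cos (φ s) ^ 2 := by
      positivity
    have a4 : Real.sin (φ s) ^ 2 = 0 := by
      have := h5 s
      nlinarith [sq_nonneg (Real.sin (φ s))]
    exact pow_eq_zero_iff (two_ne_zero) |>.1 a4
  have hcos : ∀ s, Real.cos (φ s) ^ 2 = 1 := by
    intro s
    have := Real.sin_sq_add_cos_sq (φ s)
    rw [hsin s] at this
    linarith
  have hG1 : ∀ s, G.Gc1 u (t s) (y s) = 0 := by
    intro s
    by_cases h0 : y s = 0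
    · rw [h0]
      exact F.G10 _
    · have := h5 s
      rw [hsin s, hcos s] at this
      have a2 := hGpos (t s) (y s)
      have a5 : y s * (G.Gc1 u (t s) (y s)) = 0 := by
        field_simp at this
        nlinarith
      exact (mul_eq_zero.1 a5).resolve_left h0
  have hyc : ∀ s, y s = y 0 := by
    intro s
    apply is_const_of_deriv_eq_zero (fun s => (hy s).differentiableAt)
    intro s
    rw [(hy s).deriv, hsin s]
  have hφc : ∀ s, φ s = φ 0 := by
    intro s
    apply is_const_of_deriv_eq_zero (fun s => (hφ s).differentiableAt)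
    intro s
    rw [(hφ s).deriv, hG1 s]
    simp
  -- zero curvature and `G = 1` between
  have key : ∀ τ Y : ℝ, G.Gc1 u τ Y = 0 → (∀ z ∈ uIcc 0 Y, G.Gc1 u τ z = 0) ∧
      (∀ z ∈ uIcc 0 Y, G.Gc u τ z = 1) := by
    intro τ Y hY
    have m : Monotone (G.Gc1 u τ) := by
      apply monotone_of_deriv_nonneg (fun z => (F.dG1 τ z).differentiableAt)
      intro z
      rw [(F.dG1 τ z).deriv]
      exact mul_nonneg (by linarith [F.Kneg τ z]) (hGpos τ z).le
    have z1 : ∀ z ∈ uIcc 0 Y, G.Gc1 u τ z = 0 := by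
      intro z hz
      rcases le_total 0 Y with h0 | h0
      · rw [uIcc_of_le h0] at hz
        have b1 := m hz.1
        have b2 := m hz.2
        rw [hY] at b2
        rw [F.G10] at b1
        exact le_antisymm b2 b1
      · rw [uIcc_of_ge h0] at hz
        have b1 := m hz.1
        have b2 := m hz.2
        rw [hY] at b1
        rw [F.G10] at b2
        exact le_antisymm b2 b1
    refine ⟨z1, fun z hz => ?_⟩
    have hsub : uIcc 0 z ⊆ uIcc 0 Y := uIcc_subset_uIcc left_mem_uIcc hz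
    by_contra hne
    have hz0 : z ≠ 0 := by
      rintro rfl
      exact hne (F.G0 τ)
    have hcont : Continuous (G.Gc u τ) :=
      continuous_iff_continuousAt.2 fun s => (F.dG τ s).continuousAt
    rcases lt_or_gt_of_ne hz0 with h0 | h0
    · obtain ⟨c, hc, hc'⟩ := exists_hasDerivAt_eq_slope (G.Gc u τ) (G.Gc1 u τ)
        (a := z) (b := 0) h0 hcont.continuousOn (fun x _ => F.dG τ x)
      have : G.Gc1 u τ c = 0 := z1 c (hsub (by rw [uIcc_of_ge h0.le]; exact ⟨hc.1.le, hc.2.le⟩))
      rw [this, F.G0] at hc'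
      have h00 : (0 : ℝ) - z ≠ 0 := sub_ne_zero.2 h0.ne'
      field_simp at hc'
      apply hne
      linarith
    · obtain ⟨c, hc, hc'⟩ := exists_hasDerivAt_eq_slope (G.Gc u τ) (G.Gc1 u τ)
        (a := 0) (b := z) h0 hcont.continuousOn (fun x _ => F.dG τ x)
      have : G.Gc1 u τ c = 0 := z1 c (hsub (by rw [uIcc_of_le h0.le]; exact ⟨hc.1.le, hc.2.le⟩))
      rw [this, F.G0] at hc'
      have h00 : z - 0 ≠ 0 := sub_ne_zero.2 h0.ne'
      field_simp at hc'
      apply hne
      linarith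
  have hG : ∀ s, G.Gc u (t s) (y s) = 1 := fun s => (key (t s) (y s) (hG1 s)).2 _ right_mem_uIcc
  have htc : ∀ s, t s = t 0 + s * Real.cos (φ 0) := by
    intro s
    have hd : ∀ s, HasDerivAt (fun s => t s - s * Real.cos (φ 0)) 0 s := by
      intro s
      refine HasDerivAt.congr_deriv ((ht s).sub ((hasDerivAt_id s).mul_const (Real.cos (φ 0)))) ?_
      rw [hG s, hφc s]
      simp
    have := is_const_of_deriv_eq_zero (fun s => (hd s).differentiableAt)
      (fun s => (hd s).deriv) s 0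
    simp only [zero_mul, sub_zero] at this
    linarith
  refine ⟨fun s => ⟨hsin s, hφc s, hyc s, htc s⟩, ?_⟩
  intro hy0 τ z hz
  -- find `s` with `t s = τ`
  have hc1 : Real.cos (φ 0) ^ 2 = 1 := hcos 0
  have hs : ∃ s, t s = τ := by
    refine ⟨(τ - t 0) * Real.cos (φ 0), ?_⟩
    rw [htc]
    have : (τ - t 0) * Real.cos (φ 0) * Real.cos (φ 0) = τ - t 0 := by
      have : (τ - t 0) * Real.cos (φ 0) * Real.cos (φ 0) = (τ - t 0) * Real.cos (φ 0) ^ 2 := by ring
      rw [this, hc1, mul_one]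
    linarith
  obtain ⟨s, rfl⟩ := hs
  have hk := key (t s) (y s) (hG1 s)
  rw [hyc s] at hk
  have hz1 := hk.1
  have hu : UniqueDiffWithinAt ℝ (uIcc 0 (y 0)) z := by
    rcases lt_or_gt_of_ne hy0 with h0 | h0
    · rw [uIcc_of_ge h0.le] at hz ⊢
      exact uniqueDiffOn_Icc h0 z hz
    · rw [uIcc_of_le h0.le] at hz ⊢
      exact uniqueDiffOn_Icc h0 z hz
  have d1 : HasDerivWithinAt (G.Gc1 u (t s)) (-G.Kc u (t s) z * G.Gc u (t s) z)
      (uIcc 0 (y 0)) z := (F.dG1 (t s) z).hasDerivWithinAt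
  have d2 : HasDerivWithinAt (G.Gc1 u (t s)) 0 (uIcc 0 (y 0)) z :=
    (hasDerivWithinAt_const z (uIcc 0 (y 0)) (0 : ℝ)).congr hz1 (hz1 z hz)
  have e := hu.eq_deriv _ d1 d2
  have := (mul_eq_zero.1 e).resolve_right (hGpos _ _).ne'
  linarith

end H79.Flat
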