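import Pool.Agent.H79.Flat.Par
import Pool.Agent.H65.Flat.Axis

/-! # A line which is followed by its translates is closed (helper79) -/

namespace H79.Flat

open H65.Flat Set Filter
open scoped Topology UpperHalfPlane MatrixGroups

/-- at every integer time `a` some nontrivial deck transformation moves the line of `u` along itself
by at most `n / 4`, with error at most `ε` on `[a - n/2, a + n/2]` -/
def Track (G : Geo) (u : T) (n ε : ℝ) : Prop :=
  ∀ a : ℤ, ∃ τ ∈ G.Λ, (∃ v, base (τ v) ≠ base v) ∧ ∃ s : ℝ, |s| ≤ n / 4 ∧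
    ∀ x : ℝ, |x - a| ≤ n / 2 → dist (base (τ (G.Φ x u))) (base (G.Φ (x + s) u)) ≤ ε

theorem rot_zero (v : T) : rot 0 v = v := by
  unfold rot; simp

theorem rot_rot (a b : ℝ) (v : T) : rot a (rot b v) = rot (a + b) v := by
  unfold rot; simp only [Prod.mk.injEq, true_and]; ring

theorem base_rot (a : ℝ) (v : T) : base (rot a v) = base v := rfl

theorem base_continuous : Continuous base := by
  rw [UpperHalfPlane.isEmbedding_coe.continuous_iff]
  have : (UpperHalfPlane.coe ∘ base) = fun v : T => ((v.1 : ℂ) + (Real.exp v.2.1 : ℂ) * Complex.I) := by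
    funext v
    apply Complex.ext
    · simp [base, -Complex.ofReal_exp]
    · simp [base, -Complex.ofReal_exp]
  rw [this]
  fun_prop

/-- the vector with angle zero at a point -/
noncomputable def sec (z : ℍ) : T := (z.re, Real.log z.im, 0)

theorem base_sec (z : ℍ) : base (sec z) = z := by
  unfold base sec
  ext
  apply Complex.ext
  · rfl
  · simp [Real.exp_log z.im_pos]

theorem rot_sec (v : T) : rot v.2.2 (sec (base v)) = v := by
  unfold rot sec base
  simp only [zero_add]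
  apply Prod.ext
  · rfl
  · apply Prod.ext
    · exact Real.log_exp _
    · rfl

theorem sec_continuous : Continuous sec := by
  unfold sec
  refine Continuous.prodMk UpperHalfPlane.continuous_re (Continuous.prodMk ?_ continuous_const)
  exact UpperHalfPlane.continuous_im.log fun z => z.im_pos.ne'

variable (G : Geo)

theorem psi_add (u : T) (x t y φ : ℝ) :
    Psi G.Φ (G.Φ x u) (t, y, φ) = Psi G.Φ u (t + x, y, φ) := by
  unfold Psi
  rw [← G.flow_add]

theorem psi_deck {τ : Equiv.Perm T} (hτ : τ ∈ G.Λ) (u p : T) :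
    Psi G.Φ (τ u) p = τ (Psi G.Φ u p) := by
  unfold Psi
  rw [G.Λ_flow τ hτ, G.Λ_rot τ hτ, G.Λ_flow τ hτ, G.Λ_rot τ hτ]

theorem rot_psi (a : ℝ) (u : T) (t y φ : ℝ) :
    rot a (Psi G.Φ u (t, y, φ)) = Psi G.Φ u (t, y, φ + a) := by
  unfold Psi
  rw [rot_rot]
  congr 1
  simp only
  ring

theorem psi_axis (u : T) (t φ : ℝ) : Psi G.Φ u (t, 0, φ) = rot φ (G.Φ t u) := by
  unfold Psi
  simp only
  rw [G.flow_zero, rot_rot]
  congr 1
  ring

theorem inv_add (u v : T) (x : ℝ) :
    G.inv u v = ((G.inv (G.Φ x u) v).1 + x, (G.inv (G.Φ x u) v).2.1, (G.inv (G.Φ x u) v).2.2) := by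
  have h := G.inv_right (G.Φ x u) v
  have h2 := psi_add G u x (G.inv (G.Φ x u) v).1 (G.inv (G.Φ x u) v).2.1 (G.inv (G.Φ x u) v).2.2
  rw [← G.inv_left u ((G.inv (G.Φ x u) v).1 + x, (G.inv (G.Φ x u) v).2.1,
    (G.inv (G.Φ x u) v).2.2), ← h2]
  congr 1
  exact h.symm

theorem inv_deck {τ : Equiv.Perm T} (hτ : τ ∈ G.Λ) (u v : T) :
    G.inv (τ u) (τ v) = G.inv u v := by
  rw [← G.inv_left (τ u) (G.inv u v), psi_deck G hτ, G.inv_right]

theorem inv_rot (a : ℝ) (u v : T) :
    G.inv u (rot a v) = ((G.inv u v).1, (G.inv u v).2.1, (G.inv u v).2.2 + a) := by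
  rw [← G.inv_left u ((G.inv u v).1, (G.inv u v).2.1, (G.inv u v).2.2 + a), ← rot_psi]
  congr 2
  exact (G.inv_right u v).symm

/-- the chart of a vector `τ u` of the strip -/
theorem psi_shift (u v : T) (t0 y0 : ℝ) (h : ∀ s, G.Φ s v = Psi G.Φ u (t0 + s, y0, 0))
    (t y φ : ℝ) : Psi G.Φ v (t, y, φ) = Psi G.Φ u (t0 + t, y0 + y, φ) := by
  have h1 := h t
  unfold Psi at h1 ⊢
  simp only at h1 ⊢
  rw [h1, rot_rot]
  have : Real.pi / 2 + (0 - Real.pi / 2) = 0 := by ring
  rw [this, rot_zero, ← G.flow_add, add_comm y y0]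

/-- a strip which is periodic in the transversal direction cannot exist -/
theorem no_periodic_strip (u : T) (τ : Equiv.Perm T) (hτ : τ ∈ G.Λ) (t0 y0 : ℝ) (hy : y0 ≠ 0)
    (h : ∀ s, G.Φ s (τ u) = Psi G.Φ u (t0 + s, y0, 0)) (hs : G.Strip u y0) : False := by
  have h1 : ∀ t y, G.Kc u t y = G.Kc u (t0 + t) (y0 + y) := by
    intro t y
    unfold Geo.Kc
    rw [← psi_shift G u (τ u) t0 y0 h, psi_deck G hτ, G.Λ_K τ hτ]
  have h2 : ∀ (m : ℕ) t y, G.Kc u t y = G.Kc u (m * t0 + t) (m * y0 + y) := by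
    intro m
    induction m with
    | zero => intro t y; simp
    | succ m ih =>
      intro t y
      rw [ih, h1]
      congr 1 <;> push_cast <;> ring
  have h3 : ∀ (m : ℤ) t y, G.Kc u t y = G.Kc u (m * t0 + t) (m * y0 + y) := by
    intro m t y
    obtain ⟨k, rfl | rfl⟩ := m.eq_nat_or_neg
    · exact_mod_cast h2 k t y
    · rw [h2 k (((-(k : ℤ) : ℤ) : ℝ) * t0 + t)]
      congr 1 <;> push_cast <;> ring
  have h4 : ∀ t y, G.Kc u t y = 0 := by
    intro t y
    rw [h3 (-⌊y / y0⌋) t y]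
    apply hs
    have e1 : ((-⌊y / y0⌋ : ℤ) : ℝ) * y0 + y = Int.fract (y / y0) * y0 := by
      rw [Int.fract]
      push_cast
      field_simp
      ring
    rw [e1]
    have f0 := Int.fract_nonneg (y / y0)
    have f1 := (Int.fract_lt_one (y / y0)).le
    rcases le_total 0 y0 with h0 | h0
    · rw [uIcc_of_le h0]
      exact ⟨mul_nonneg f0 h0, by nlinarith⟩
    · rw [uIcc_of_ge h0]
      exact ⟨by nlinarith, mul_nonpos_of_nonneg_of_nonpos f0 h0⟩
  obtain ⟨v, hv⟩ := G.K_ne
  apply hv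
  have e := G.inv_right u v
  have e2 := rot_psi G (-(G.inv u v).2.2) u (G.inv u v).1 (G.inv u v).2.1 (G.inv u v).2.2
  have e3 : rot (-(G.inv u v).2.2) v = Psi G.Φ u ((G.inv u v).1, (G.inv u v).2.1, 0) := by
    rw [add_neg_cancel] at e2
    rw [← e2]
    congr 1
    exact e.symm
  rw [← G.K_rot (-(G.inv u v).2.2) v, e3]
  exact h4 _ _

/-- a nontrivial deck transformation moving the line of `u` to a line at bounded distance: closed -/
theorem per_of_bounded (u : T) (τ : Equiv.Perm T) (hτ : τ ∈ G.Λ) (hne : ∃ v, base (τ v) ≠ base v)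
    (B : ℝ) (hB : ∀ x, |(G.inv (G.Φ x u) (G.Φ x (τ u))).1| ≤ B ∧
      |(G.inv (G.Φ x u) (G.Φ x (τ u))).2.1| ≤ B) : G.Per u := by
  obtain ⟨t, y, φ, ht0, hy0, hφ0, hsol, hfl⟩ := G.chart_sol u (G.inv u (τ u))
  rw [G.inv_right] at hfl
  have hinv : ∀ s, G.inv u (G.Φ s (τ u)) = (t s, y s, φ s) := by
    intro s; rw [hfl s, G.inv_left]
  have hyB : ∀ s, |y s| ≤ B := by
    intro s
    have := (hB s).2
    have e := inv_add G u (G.Φ s (τ u)) s
    rw [hinv s] at e
    have e1 := congrArg (fun p : T => p.2.1) e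
    simp only at e1
    rw [e1]
    exact this
  have htB : ∀ s, |t s - s| ≤ B := by
    intro s
    have := (hB s).1
    have e := inv_add G u (G.Φ s (τ u)) s
    rw [hinv s] at e
    have e1 := congrArg (fun p : T => p.1) e
    simp only at e1
    rw [e1, add_sub_cancel_right]
    exact this
  obtain ⟨hpar, hstrip⟩ := parallel_of_bounded G u t y φ hsol B hyB
  -- `cos φ₀ = 1`
  have hc1 : Real.cos (φ 0) = 1 := by
    have hs := (hpar 0).1
    have hsq := Real.sin_sq_add_cos_sq (φ 0)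
    rw [hs] at hsq
    have : Real.cos (φ 0) = 1 ∨ Real.cos (φ 0) = -1 := by
      have : (Real.cos (φ 0) - 1) * (Real.cos (φ 0) + 1) = 0 := by nlinarith
      rcases mul_eq_zero.1 this with h | h
      · left; linarith
      · right; linarith
    rcases this with h | h
    · exact h
    · exfalso
      have h1 := (hpar (B + |t 0| + 1)).2.2.2
      have h2 := abs_le.1 (htB (B + |t 0| + 1))
      rw [h1, h] at h2
      have h3 := neg_abs_le (t 0)
      have h4 := le_abs_self (t 0)
      have h5 : 0 ≤ B := (abs_nonneg _).trans (hyB 0)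
      linarith [h2.1, abs_nonneg (t 0)]
  obtain ⟨k, hk⟩ := (Real.cos_eq_one_iff _).1 hc1
  obtain ⟨ρ, hρ, hρ'⟩ := G.Λ_rot2pi (-k)
  have key : ∀ s, G.Φ s ((ρ * τ) u) = Psi G.Φ u (t 0 + s, y 0, 0) := by
    intro s
    rw [Equiv.Perm.mul_apply, G.Λ_flow ρ hρ, hfl s, hρ', rot_psi, (hpar s).2.1, (hpar s).2.2.1,
      (hpar s).2.2.2, hc1, ← hk]
    congr 3
    · ring
    · push_cast; ring
  have hmem : ρ * τ ∈ G.Λ := G.Λ.mul_mem hρ hτ
  by_cases h0 : y 0 = 0
  · refine ⟨ρ * τ, hmem, t 0, ?_, ?_⟩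
    · intro ht
      have e := key 0
      rw [G.flow_zero, h0, ht, add_zero, psi_axis, G.flow_zero, rot_zero] at e
      rw [Equiv.Perm.mul_apply, hρ'] at e
      obtain ⟨j, hj⟩ := G.Λ_triv τ hτ ⟨u, by
        have := congrArg base e
        rw [base_rot] at this
        exact this⟩
      obtain ⟨v, hv⟩ := hne
      exact hv (by rw [hj, base_rot])
    · have e := key 0
      rw [G.flow_zero, h0, add_zero, psi_axis, rot_zero] at e
      exact e
  · exact (no_periodic_strip G u (ρ * τ) hmem (t 0) (y 0) h0 key (hstrip h0)).elim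

/-- the flow moves points by a bounded amount in bounded time -/
theorem exists_disp_bound (S : ℝ) :
    ∃ L : ℝ, ∀ v s, |s| ≤ S → dist (base v) (base (G.Φ s v)) ≤ L := by
  obtain ⟨C, hC, hC'⟩ := G.Λ_cocompact
  have hcont : Continuous fun p : ℝ × T => dist (base p.2) (base (G.Φ p.1 p.2)) :=
    (base_continuous.comp continuous_snd).dist (base_continuous.comp G.flow_cont)
  obtain ⟨L, hL⟩ := ((isCompact_Icc (a := -S) (b := S)).prod hC).exists_bound_of_continuousOn
    hcont.continuousOn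
  refine ⟨L, fun v s hs => ?_⟩
  obtain ⟨τ, hτ, hv⟩ := hC' v
  obtain ⟨g, hg, hg'⟩ := G.Λ_base τ hτ
  have := hL (s, τ v) ⟨abs_le.1 hs, hv⟩
  rw [Real.norm_of_nonneg dist_nonneg] at this
  simp only at this
  rwa [G.Λ_flow τ hτ, hg', hg', dist_smul] at this

/-- vectors with base points at bounded distance have bounded Fermi coordinates -/
theorem exists_inv_bound (L : ℝ) : ∃ B : ℝ, ∀ v w, dist (base v) (base w) ≤ L →
    |(G.inv v w).1| ≤ B ∧ |(G.inv v w).2.1| ≤ B := by
  obtain ⟨C, hC, hC'⟩ := G.Λ_cocompact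
  obtain ⟨R, hR⟩ := (hC.image base_continuous).isBounded.subset_closedBall UpperHalfPlane.I
  have hcont : Continuous fun p : T × ℍ => G.inv p.1 (sec p.2) :=
    G.inv_cont.comp (continuous_fst.prodMk (sec_continuous.comp continuous_snd))
  have c1 : Continuous fun p : T × ℍ => |(G.inv p.1 (sec p.2)).1| + |(G.inv p.1 (sec p.2)).2.1| :=
    (continuous_abs.comp (continuous_fst.comp hcont)).add
      (continuous_abs.comp (continuous_fst.comp (continuous_snd.comp hcont)))
  obtain ⟨B, hB⟩ := (hC.prod (isCompact_closedBall (UpperHalfPlane.I) (R + L))).exists_bound_of_continuousOn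
    c1.continuousOn
  refine ⟨B, fun v w hvw => ?_⟩
  obtain ⟨τ, hτ, hv⟩ := hC' v
  obtain ⟨g, hg, hg'⟩ := G.Λ_base τ hτ
  have hd : dist (base (τ v)) (base (τ w)) ≤ L := by rwa [hg', hg', dist_smul]
  have h1 : dist (base (τ v)) UpperHalfPlane.I ≤ R := hR ⟨_, hv, rfl⟩
  have h2 : base (τ w) ∈ Metric.closedBall UpperHalfPlane.I (R + L) := by
    rw [Metric.mem_closedBall]
    have := dist_triangle (base (τ w)) (base (τ v)) UpperHalfPlane.I
    have h4 : dist (base (τ w)) (base (τ v)) ≤ L := by rwa [dist_comm]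
    linarith
  have h3 := hB (τ v, base (τ w)) ⟨hv, h2⟩
  simp only at h3
  have e := inv_rot G (τ w).2.2 (τ v) (sec (base (τ w)))
  rw [rot_sec, inv_deck G hτ] at e
  have e1 := congrArg (fun p : T => p.1) e
  have e2 := congrArg (fun p : T => p.2.1) e
  simp only at e1 e2
  rw [e1, e2]
  rw [Real.norm_of_nonneg (by positivity)] at h3
  constructor
  · linarith [abs_nonneg (G.inv (τ v) (sec (base (τ w)))).2.1]
  · linarith [abs_nonneg (G.inv (τ v) (sec (base (τ w)))).1]

/-- **Lemma N2**: a line which is followed by its translates is closed -/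
theorem per_of_track {u : T} {ι : ℝ} (hι : 0 < ι)
    (hd : ∀ g ∈ G.Γ, (∃ z : ℍ, dist z (g • z) < ι) → ∀ z : ℍ, g • z = z)
    {n ε : ℝ} (hn : 4 ≤ n) (hε : 4 * ε < ι) (h : Track G u n ε) : G.Per u := by
  choose τ hτ hne s hs htr using h
  choose g hg hg' using fun a => G.Λ_base (τ a) (hτ a)
  have htr' : ∀ (a : ℤ) (x : ℝ), |x - a| ≤ n / 2 →
      dist (g a • base (G.Φ x u)) (base (G.Φ (x + s a) u)) ≤ ε := by
    intro a x hx
    rw [← hg']
    exact htr a x hx
  have hnt : ∀ a, Nontriv (g a) := by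
    intro a
    obtain ⟨v, hv⟩ := hne a
    exact ⟨base v, by rw [← hg']; exact hv⟩
  have hcomm : ∀ a b : ℤ, |(a : ℝ) - b| ≤ 1 → ∀ z : ℍ, g a • g b • z = g b • g a • z := by
    intro a b hab
    have q1 : dist (g b • base (G.Φ a u)) (base (G.Φ (a + s b) u)) ≤ ε :=
      htr' b a (by linarith)
    have q2 : dist (g a • g b • base (G.Φ a u)) (g a • base (G.Φ (a + s b) u)) ≤ ε := by
      rwa [dist_smul]
    have q3 : dist (g a • base (G.Φ (a + s b) u)) (base (G.Φ (a + s b + s a) u)) ≤ ε :=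
      htr' a _ (by rw [add_sub_cancel_left]; linarith [hs b])
    have q4 : dist (g a • base (G.Φ a u)) (base (G.Φ (a + s a) u)) ≤ ε :=
      htr' a a (by rw [sub_self, abs_zero]; linarith)
    have q5 : dist (g b • g a • base (G.Φ a u)) (g b • base (G.Φ (a + s a) u)) ≤ ε := by
      rwa [dist_smul]
    have q6 : dist (g b • base (G.Φ (a + s a) u)) (base (G.Φ (a + s a + s b) u)) ≤ ε := by
      apply htr'
      have : (a : ℝ) + s a - b = (a - b) + s a := by ring
      rw [this]
      have := abs_add_le ((a : ℝ) - b) (s a)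
      linarith [hs a]
    have e : (a : ℝ) + s b + s a = a + s a + s b := by ring
    rw [e] at q3
    have q7 : dist (g a • g b • base (G.Φ a u)) (g b • g a • base (G.Φ a u)) < ι := by
      have t1 := dist_triangle (g a • g b • base (G.Φ a u)) (g a • base (G.Φ (a + s b) u))
        (base (G.Φ (a + s a + s b) u))
      have t2 := dist_triangle (g b • g a • base (G.Φ a u)) (g b • base (G.Φ (a + s a) u))
        (base (G.Φ (a + s a + s b) u))
      have t3 := dist_triangle_right (g a • g b • base (G.Φ a u)) (g b • g a • base (G.Φ a u))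
        (base (G.Φ (a + s a + s b) u))
      linarith
    have hmem : (g b * g a)⁻¹ * (g a * g b) ∈ G.Γ :=
      G.Γ.mul_mem (G.Γ.inv_mem (G.Γ.mul_mem (hg b) (hg a))) (G.Γ.mul_mem (hg a) (hg b))
    have htriv := hd _ hmem ⟨base (G.Φ a u), by
      rw [← dist_smul (g b * g a), smul_smul, mul_inv_cancel_left, dist_comm, mul_smul, mul_smul]
      exact q7⟩
    intro z
    have := htriv z
    rw [mul_smul, inv_smul_eq_iff, mul_smul, mul_smul] at this
    exact this
  have hC1 : ∀ a b : ℤ, |(a : ℝ) - b| ≤ 1 → Comm1 G.Γ (g a) (g b) := fun a b hab =>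
    ⟨hg a, hg b, hnt a, hnt b, hcomm a b hab⟩
  have hchain : ∀ a : ℤ, Relation.ReflTransGen (Comm1 G.Γ) (g 0) (g a) := by
    intro a
    induction a using Int.induction_on with
    | zero => exact Relation.ReflTransGen.refl
    | succ i ih =>
      refine ih.tail (hC1 _ _ ?_)
      push_cast
      rw [show (i : ℝ) - (i + 1) = -1 by ring, abs_neg, abs_one]
    | pred i ih =>
      refine ih.tail (hC1 _ _ ?_)
      push_cast
      rw [show -(i : ℝ) - (-i - 1) = 1 by ring, abs_one]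
  obtain ⟨L1, hL1⟩ := exists_disp_bound G (n / 4)
  obtain ⟨L2, hL2⟩ := exists_disp_bound G 1
  obtain ⟨L', hL'⟩ := axis_bound G.Γ hι hd (g 0) (hg 0) (hnt 0) (L1 + ε)
  have hint : ∀ a : ℤ, dist (base (G.Φ a u)) (g 0 • base (G.Φ a u)) ≤ L' := by
    intro a
    apply hL' (g a) (hchain a)
    have q1 := hL1 (G.Φ a u) (s a) (hs a)
    rw [← G.flow_add, add_comm] at q1
    have q2 := htr' a a (by rw [sub_self, abs_zero]; linarith)
    have := dist_triangle_right (base (G.Φ a u)) (g a • base (G.Φ a u)) (base (G.Φ (a + s a) u))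
    linarith
  have hreal : ∀ x : ℝ, dist (base (G.Φ x u)) (g 0 • base (G.Φ x u)) ≤ L2 + L' + L2 := by
    intro x
    have q1 := hL2 (G.Φ x u) (⌊x⌋ - x) (by
      rw [abs_le]
      constructor
      · linarith [Int.lt_floor_add_one x]
      · linarith [Int.floor_le x])
    rw [← G.flow_add, sub_add_cancel] at q1
    have q2 := hint ⌊x⌋
    have q3 : dist (g 0 • base (G.Φ x u)) (g 0 • base (G.Φ ⌊x⌋ u)) ≤ L2 := by rwa [dist_smul]
    have t1 := dist_triangle4_right (base (G.Φ x u)) (g 0 • base (G.Φ x u)) (base (G.Φ ⌊x⌋ u))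
      (g 0 • base (G.Φ ⌊x⌋ u))
    linarith
  obtain ⟨B, hB⟩ := exists_inv_bound G (L2 + L' + L2)
  apply per_of_bounded G u (τ 0) (hτ 0) (hne 0) B
  intro x
  apply hB
  rw [G.Λ_flow _ (hτ 0), hg']
  exact hreal x

end H79.Flat
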